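import Pool.Agent.Lib.MP_1d263a_an.Metric

/-!
# MP_1d263a_an: quasisymmetric images of the Sierpinski carpet are not Ahlfors `p`-regular, `p ≤ 1.74`
-/

set_option autoImplicit false

namespace Pool.Agent.Results.MP_1d263a_an.ExponentGap

open MeasureTheory Pool.Agent.Lib.MP_1d263a_an

/-- `f` is a quasisymmetric bijection of the carpet onto the metric space `X` -/
def IsQuasisymmetric {X : Type*} [MetricSpace X] (f : carpet ≃ X) : Prop :=
  ∃ η : ℝ → ℝ, η 0 = 0 ∧ StrictMonoOn η (Set.Ici 0) ∧ ContinuousOn η (Set.Ici 0) ∧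
    ∀ x a b : carpet, ∀ t : ℝ, 0 ≤ t → dist x a ≤ t * dist x b →
      dist (f x) (f a) ≤ η t * dist (f x) (f b)

/-- `X` with the `p`-dimensional Hausdorff measure is Ahlfors `p`-regular -/
def IsAhlforsRegular (X : Type*) [MetricSpace X] [MeasurableSpace X] [BorelSpace X] (p : ℝ) :
    Prop :=
  ∃ C : ℝ, 1 ≤ C ∧ ∀ x : X, ∀ r : ℝ, 0 < r → r ≤ Metric.diam (Set.univ : Set X) →
    ENNReal.ofReal (C⁻¹ * r ^ p) ≤ Measure.hausdorffMeasure p (Metric.closedBall x r) ∧
    Measure.hausdorffMeasure p (Metric.closedBall x r) ≤ ENNReal.ofReal (C * r ^ p)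

/-- A metric space that is quasisymmetric to the standard Sierpinski carpet is not Ahlfors
`p`-regular for any `p ≤ 1.74`. -/
theorem result {X : Type*} [MetricSpace X] [MeasurableSpace X] [BorelSpace X] (f : carpet ≃ X)
    (hf : IsQuasisymmetric f) (p : ℝ) (hp : p ≤ 1.74) : ¬ IsAhlforsRegular X p := by
  obtain ⟨η, -, -, -, hη⟩ := hf
  rintro ⟨C, hC, hA⟩
  exact no_regular (f := f) (H := η 1) (fun x a b h => hη x a b 1 zero_le_one h)
    (by norm_num at hp ⊢; exact hp) hC hA

end Pool.Agent.Results.MP_1d263a_an.ExponentGap
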